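import Pool.Agent.helper36.NF.SpecD

set_option autoImplicit false

open Polynomial Filter FirstOrder FirstOrder.Language

namespace Pool.Agent.NoFormula

theorem TA2_tot (q j : ℕ) (hq : q.Prime) : Nat.totient (q ^ j) ∣ q ^ j * (q - 1) := by
  rcases Nat.eq_zero_or_pos j with h | h
  · subst h
    simp
  · rw [Nat.totient_prime_pow hq h]
    exact Nat.mul_dvd_mul (pow_dvd_pow q (Nat.sub_le j 1)) dvd_rfl

theorem TA2_two (q j : ℕ) (hq : q.Prime) (h2 : 2 < q) (n1 n2 : ℕ)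
    (h : ((q ^ j * (q - 1) : ℕ) : ℤ) ∣ (n1 : ℤ) - n2) : ((q ^ j : ℕ) : ℤ) ∣ 2 ^ n1 - 2 ^ n2 := by
  have hco : Nat.Coprime 2 (q ^ j) := by
    apply Nat.Coprime.pow_right
    rw [Nat.coprime_primes Nat.prime_two hq]
    omega
  have hp : 2 ^ Nat.totient (q ^ j) ≡ 1 [MOD q ^ j] := Nat.ModEq.pow_totient hco
  have h' : ((Nat.totient (q ^ j) : ℕ) : ℤ) ∣ (n1 : ℤ) - n2 :=
    (Int.natCast_dvd_natCast.2 (TA2_tot q j hq)).trans h
  have key : ∀ a b : ℕ, a ≤ b → ((Nat.totient (q ^ j) : ℕ) : ℤ) ∣ (b : ℤ) - a → 2 ^ b ≡ 2 ^ a [MOD q ^ j] := by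
    intro a b hab hd
    have hd' : Nat.totient (q ^ j) ∣ b - a := by
      have : ((b - a : ℕ) : ℤ) = (b : ℤ) - a := by push_cast [hab]; ring
      rw [← this] at hd
      exact Int.natCast_dvd_natCast.1 hd
    obtain ⟨c, hc⟩ := hd'
    have hb : b = a + Nat.totient (q ^ j) * c := by omega
    rw [hb, pow_add, pow_mul]
    have h3 : (2 ^ Nat.totient (q ^ j)) ^ c ≡ 1 ^ c [MOD q ^ j] := hp.pow c
    have h4 := Nat.ModEq.mul_left (2 ^ a) h3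
    simpa using h4
  have hm : 2 ^ n2 ≡ 2 ^ n1 [MOD q ^ j] := by
    rcases le_total n1 n2 with h1 | h1
    · apply key n1 n2 h1
      have := dvd_neg.2 h'
      rwa [neg_sub] at this
    · exact (key n2 n1 h1 h').symm
  have h5 := (Nat.modEq_iff_dvd).1 hm
  push_cast at h5 ⊢
  exact h5

theorem TA2_term (q j : ℕ) (hq : q.Prime) (h2 : 2 < q) (p Q : ℤ[X]) (m : ℕ)
    (h0 : 0 ≤ Q.eval (m : ℤ)) (h1 : 0 ≤ Q.eval ((m + q ^ j * (q - 1) : ℕ) : ℤ)) :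
    ((q ^ j : ℕ) : ℤ) ∣ p.eval ((m + q ^ j * (q - 1) : ℕ) : ℤ) * 2 ^ (Q.eval ((m + q ^ j * (q - 1) : ℕ) : ℤ)).toNat
      - p.eval (m : ℤ) * 2 ^ (Q.eval (m : ℤ)).toNat := by
  have hd : ∀ P : ℤ[X], ((q ^ j * (q - 1) : ℕ) : ℤ) ∣ P.eval ((m + q ^ j * (q - 1) : ℕ) : ℤ) - P.eval (m : ℤ) := by
    intro P
    have h := Polynomial.sub_dvd_eval_sub ((m + q ^ j * (q - 1) : ℕ) : ℤ) (m : ℤ) P
    have e : ((m + q ^ j * (q - 1) : ℕ) : ℤ) - (m : ℤ) = ((q ^ j * (q - 1) : ℕ) : ℤ) := by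
      rw [Nat.cast_add]; ring
    rwa [e] at h
  have hA : ((q ^ j : ℕ) : ℤ) ∣ p.eval ((m + q ^ j * (q - 1) : ℕ) : ℤ) - p.eval (m : ℤ) :=
    (Int.natCast_dvd_natCast.2 (Dvd.intro _ rfl)).trans (hd p)
  have hC : ((q ^ j : ℕ) : ℤ) ∣ 2 ^ (Q.eval ((m + q ^ j * (q - 1) : ℕ) : ℤ)).toNat - 2 ^ (Q.eval (m : ℤ)).toNat := by
    apply TA2_two q j hq h2
    rw [Int.toNat_of_nonneg h0, Int.toNat_of_nonneg h1]
    exact hd Q
  have e : p.eval ((m + q ^ j * (q - 1) : ℕ) : ℤ) * 2 ^ (Q.eval ((m + q ^ j * (q - 1) : ℕ) : ℤ)).toNat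
      - p.eval (m : ℤ) * 2 ^ (Q.eval (m : ℤ)).toNat
      = (p.eval ((m + q ^ j * (q - 1) : ℕ) : ℤ) - p.eval (m : ℤ)) *
          2 ^ (Q.eval ((m + q ^ j * (q - 1) : ℕ) : ℤ)).toNat
        + p.eval (m : ℤ) * (2 ^ (Q.eval ((m + q ^ j * (q - 1) : ℕ) : ℤ)).toNat
          - 2 ^ (Q.eval (m : ℤ)).toNat) := by ring
  rw [e]
  exact dvd_add (Dvd.dvd.mul_right hA _) (Dvd.dvd.mul_left hC _)

theorem TA2_sum (q j : ℕ) (hq : q.Prime) (h2 : 2 < q) (m : ℕ) (L : List (ℤ[X] × ℤ[X]))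
    (h0 : ∀ x ∈ L, 0 ≤ x.2.eval (m : ℤ)) (h1 : ∀ x ∈ L, 0 ≤ x.2.eval ((m + q ^ j * (q - 1) : ℕ) : ℤ)) :
    ((q ^ j : ℕ) : ℤ) ∣ (L.map (fun x => x.1.eval ((m + q ^ j * (q - 1) : ℕ) : ℤ) *
        2 ^ (x.2.eval ((m + q ^ j * (q - 1) : ℕ) : ℤ)).toNat)).sum
      - (L.map (fun x => x.1.eval (m : ℤ) * 2 ^ (x.2.eval (m : ℤ)).toNat)).sum := by
  induction L with
  | nil => simp
  | cons x L ih =>
    have hx := TA2_term q j hq h2 x.1 x.2 m (h0 x (by simp)) (h1 x (by simp))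
    have hL := ih (fun y hy => h0 y (List.mem_cons_of_mem _ hy)) (fun y hy => h1 y (List.mem_cons_of_mem _ hy))
    simp only [List.map_cons, List.sum_cons]
    rw [add_sub_add_comm]
    exact dvd_add hx hL

theorem TA2 : TA2_stmt := by
  rintro f ⟨L, hL, hf⟩
  have hall : ∀ᶠ m : ℕ in atTop, ∀ x ∈ L, 0 ≤ x.2.eval (m : ℤ) := by
    have h := (Filter.eventually_all_finite (L.finite_toSet)
      (l := (atTop : Filter ℕ)) (p := fun x m => 0 ≤ x.2.eval (m : ℤ))).2 hL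
    exact h
  obtain ⟨M, hM⟩ := Filter.eventually_atTop.1 (hall.and hf)
  refine ⟨max M 2, fun q hq hMq j => ⟨q ^ j * (q - 1), ?_, fun m hm => ?_⟩⟩
  · have h1 : 1 < q := hq.one_lt
    exact Nat.mul_pos (pow_pos (by omega) j) (by omega)
  · have hm' : M ≤ m := le_trans (le_max_left _ _) hm
    have h2 : 2 < q := lt_of_le_of_lt (le_max_right _ _) hMq
    obtain ⟨a0, b0⟩ := hM m hm'
    obtain ⟨a1, b1⟩ := hM (m + q ^ j * (q - 1)) (by omega)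
    rw [b0, b1]
    have h3 := TA2_sum q j hq h2 m L a0 a1
    rwa [Nat.cast_pow] at h3

end Pool.Agent.NoFormula
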